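import Pool.Agent.W27.FB.Stm

set_option autoImplicit false
open Filter Topology Finset
open scoped BoundedContinuousFunction InnerProductSpace ComplexConjugate

/-!
# Project FN, part APPR: the almost periodic part of a set, for correlations
-/

namespace Pool.Agent.W372.FN

open Pool.Agent.W27.FB Pool.Agent.W634.BQ Pool.Agent.W505.BQ

namespace APPR

variable {m : (ℤ →ᵇ ℝ) →ₗ[ℝ] ℝ} {H : Type} [NormedAddCommGroup H] [InnerProductSpace ℂ H]
  {ι : (ℤ →ᵇ ℂ) →ₗ[ℂ] H}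

theorem norm_sq (hin : ∀ f g : ℤ →ᵇ ℂ, ⟪ι f, ι g⟫_ℂ = mC m (star f * g)) (f : ℤ →ᵇ ℂ) :
    ‖ι f‖ ^ 2 = m (cre (star f * f)) := by
  rw [← inner_self_eq_norm_sq (𝕜 := ℂ), hin, mC_apply]
  simp

theorem norm_le (hm : IsMean m) (hin : ∀ f g : ℤ →ᵇ ℂ, ⟪ι f, ι g⟫_ℂ = mC m (star f * g))
    (f g : ℤ →ᵇ ℂ) (h : ∀ n, ‖f n‖ ≤ ‖g n‖) : ‖ι f‖ ≤ ‖ι g‖ := by
  have h1 : ‖ι f‖ ^ 2 ≤ ‖ι g‖ ^ 2 := by
    rw [norm_sq hin, norm_sq hin]
    have h2 : 0 ≤ m (cre (star g * g) - cre (star f * f)) := by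
      apply hm.pos
      intro n
      simp only [BoundedContinuousFunction.coe_sub, Pi.sub_apply, cre_apply,
        BoundedContinuousFunction.coe_mul, Pi.mul_apply, BoundedContinuousFunction.star_apply]
      rw [RCLike.star_def, ← Complex.normSq_eq_conj_mul_self,
        ← Complex.normSq_eq_conj_mul_self, Complex.ofReal_re, Complex.ofReal_re,
        Complex.normSq_eq_norm_sq, Complex.normSq_eq_norm_sq, sub_nonneg]
      exact pow_le_pow_left₀ (norm_nonneg _) (h n) 2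
    rw [map_sub] at h2
    linarith
  exact (pow_le_pow_iff_left₀ (norm_nonneg _) (norm_nonneg _) (by norm_num)).1 h1

theorem norm_one' (hm : IsMean m) (hin : ∀ f g : ℤ →ᵇ ℂ, ⟪ι f, ι g⟫_ℂ = mC m (star f * g)) :
    ‖ι 1‖ = 1 := by
  have h1 : ‖ι 1‖ ^ 2 = 1 := by
    rw [norm_sq hin]
    have h2 : cre (star (1 : ℤ →ᵇ ℂ) * 1) = 1 := by
      ext n
      simp
    rw [h2, hm.one]
  have h3 : (‖ι 1‖ - 1) * (‖ι 1‖ + 1) = 0 := by linear_combination h1
  rcases mul_eq_zero.1 h3 with h4 | h4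
  · linarith
  · have := norm_nonneg (ι 1)
    linarith

theorem norm_le_one (hm : IsMean m)
    (hin : ∀ f g : ℤ →ᵇ ℂ, ⟪ι f, ι g⟫_ℂ = mC m (star f * g))
    (f : ℤ →ᵇ ℂ) (h : ∀ n, ‖f n‖ ≤ 1) : ‖ι f‖ ≤ 1 := by
  rw [← norm_one' hm hin]
  refine norm_le hm hin f 1 fun n => ?_
  simpa using h n

theorem zpow_io (U : H ≃ₗᵢ[ℂ] H) (hU : ∀ f, U (ι f) = ι (sh 1 f)) (a : ℤ) (f : ℤ →ᵇ ℂ) :
    (U ^ a) (ι f) = ι (sh a f) := by
  induction a using Int.induction_on generalizing f with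
  | zero =>
    rw [zpow_zero]
    have : sh 0 f = f := by ext n; simp
    rw [this]
    rfl
  | succ i ih =>
    rw [zpow_add_one]
    show (U ^ (i : ℤ)) (U (ι f)) = _
    rw [hU, ih]
    congr 1
    ext n
    simp only [sh_apply]
    congr 1
    ring
  | pred i ih =>
    rw [zpow_sub_one]
    have h1 : U⁻¹ (ι f) = ι (sh (-1) f) := by
      have h2 : U (ι (sh (-1) f)) = ι f := by
        rw [hU]
        congr 1
        ext n
        simp
      rw [← h2]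
      show U.symm (U _) = _
      rw [LinearIsometryEquiv.symm_apply_apply]
    show (U ^ (-(i : ℤ))) (U⁻¹ (ι f)) = _
    rw [h1, ih]
    congr 1
    ext n
    simp only [sh_apply]
    congr 1
    ring

theorem inner_zpow (U : H ≃ₗᵢ[ℂ] H) (a : ℤ) (x y : H) :
    ⟪(U ^ a) x, y⟫_ℂ = ⟪x, (U ^ (-a)) y⟫_ℂ := by
  have h1 : (U ^ a) ((U ^ (-a)) y) = y := by
    show (U ^ a * U ^ (-a)) y = y
    rw [zpow_neg, mul_inv_cancel]
    rfl
  have h2 := (U ^ a).inner_map_map x ((U ^ (-a)) y)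
  rwa [h1] at h2

/-- the absolute value as a bounded function -/
noncomputable def ab (f : ℤ →ᵇ ℂ) : ℤ →ᵇ ℝ :=
  BoundedContinuousFunction.ofNormedAddCommGroupDiscrete (fun n => ‖f n‖) ‖f‖ (by
    intro x
    rw [norm_norm]
    exact f.norm_coe_le_norm x)

theorem ab_apply (f : ℤ →ᵇ ℂ) (n : ℤ) : ab f n = ‖f n‖ := rfl

theorem ind_bd (S : Set ℤ) (n : ℤ) : 0 ≤ ind S n ∧ ind S n ≤ 1 := by
  show 0 ≤ S.indicator (fun _ => (1 : ℝ)) n ∧ S.indicator (fun _ => (1 : ℝ)) n ≤ 1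
  by_cases h : n ∈ S <;> simp [h]

/-- Minkowski, with an additive constant -/
theorem mink (hm : IsMean m) (hin : ∀ f g : ℤ →ᵇ ℂ, ⟪ι f, ι g⟫_ℂ = mC m (star f * g))
    (f g : ℤ →ᵇ ℂ) (c : ℝ) (hc : 0 ≤ c) (h : ∀ n, ‖f n‖ ≤ ‖g n‖ + c) :
    ‖ι f‖ ≤ ‖ι g‖ + c := by
  have h1 : ‖ι f‖ ≤ ‖ι (co (ab g) + (c : ℂ) • 1)‖ := by
    refine norm_le hm hin _ _ fun n => ?_
    refine (h n).trans ?_
    simp only [BoundedContinuousFunction.coe_add, Pi.add_apply, co_apply, ab_apply,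
      BoundedContinuousFunction.coe_smul, BoundedContinuousFunction.coe_one, Pi.one_apply,
      smul_eq_mul, mul_one]
    rw [← Complex.ofReal_add, Complex.norm_real, Real.norm_eq_abs]
    exact le_abs_self _
  have h2 : ‖ι (co (ab g))‖ ≤ ‖ι g‖ := by
    refine norm_le hm hin _ _ fun n => ?_
    rw [co_apply, ab_apply, Complex.norm_real, norm_norm]
  refine h1.trans ?_
  rw [map_add, map_smul]
  refine (norm_add_le _ _).trans ?_
  rw [norm_smul, norm_one' hm hin, mul_one, Complex.norm_real, Real.norm_eq_abs, abs_of_nonneg hc]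
  linarith

/-- Pythagoras -/
theorem pyth {W : Submodule ℂ H} {a b : H} (ha : a ∈ W) (hb : b ∈ Wᗮ) :
    ‖b + a‖ ^ 2 = ‖b‖ ^ 2 + ‖a‖ ^ 2 := by
  have h1 : ⟪b, a⟫_ℂ = 0 := Submodule.inner_left_of_mem_orthogonal ha hb
  have := norm_add_sq_eq_norm_sq_add_norm_sq_of_inner_eq_zero b a h1
  rw [pow_two, pow_two, pow_two]
  exact this

end APPR

open APPR in
theorem appr (hnul : S_nul) (hwmh : S_wmh) (htrg : S_trg) (hclamp : S_clamp) : S_appr := by
  intro m hm he S ε hε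
  obtain ⟨H, _, _, _, U, ι, -, hin', hU, hev⟩ := gns m hm he
  have hin : ∀ f g : ℤ →ᵇ ℂ, ⟪ι f, ι g⟫_ℂ = mC m (star f * g) := hin'
  obtain ⟨W, hW⟩ : ∃ W : Submodule ℂ H, W = (Trig.map ι).topologicalClosure := ⟨_, rfl⟩
  have hWc : IsClosed (W : Set H) := by
    rw [hW]
    exact Submodule.isClosed_topologicalClosure _
  have : CompleteSpace W := hWc.completeSpace_coe
  have hTW : ∀ q ∈ Trig, ι q ∈ W := by
    intro q hq
    rw [hW]
    exact Submodule.le_topologicalClosure _ (Submodule.mem_map_of_mem hq)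
  have hdec : ∀ x : H, ∃ w ∈ W, x - w ∈ Wᗮ := fun x =>
    Submodule.HasOrthogonalProjection.exists_orthogonal (K := W) x
  obtain ⟨x, hx⟩ : ∃ x, x = ι (co (ind S)) := ⟨_, rfl⟩
  obtain ⟨F, hF, hR⟩ := hdec x
  have hx1 : ‖x‖ ≤ 1 := by
    rw [hx]
    refine norm_le_one hm hin _ fun n => ?_
    rw [co_apply, Complex.norm_real, Real.norm_eq_abs, abs_of_nonneg (ind_bd S n).1]
    exact (ind_bd S n).2
  have hR1 : ‖x - F‖ ≤ 1 := by
    have h1 := pyth hF hR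
    rw [sub_add_cancel] at h1
    have h2 : ‖x‖ ^ 2 ≤ 1 := by
      have := pow_le_pow_left₀ (norm_nonneg _) hx1 2
      simpa using this
    have h3 : ‖x - F‖ ^ 2 ≤ 1 := by
      have := sq_nonneg ‖F‖
      linarith
    exact (sq_le_one_iff₀ (norm_nonneg _)).1 h3
  obtain ⟨δ, hδ⟩ : ∃ δ : ℝ, δ = min 1 (ε ^ 2 / 60) := ⟨_, rfl⟩
  have hδ0 : 0 < δ := by
    rw [hδ]
    exact lt_min one_pos (by positivity)
  have hδ1 : δ ≤ 1 := by rw [hδ]; exact min_le_left _ _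
  have hδ2 : δ ≤ ε ^ 2 / 60 := by rw [hδ]; exact min_le_right _ _
  obtain ⟨Q, hQ, hFQ⟩ : ∃ Q ∈ Trig, ‖F - ι Q‖ < δ := by
    have h1 : F ∈ closure ((Trig.map ι : Submodule ℂ H) : Set H) := by
      rw [← Submodule.topologicalClosure_coe, ← hW]
      exact hF
    obtain ⟨y, hy, hy2⟩ := Metric.mem_closure_iff.1 h1 δ hδ0
    obtain ⟨Q, hQ, rfl⟩ := Submodule.mem_map.1 hy
    exact ⟨Q, hQ, by rwa [← dist_eq_norm]⟩
  obtain ⟨P, hP1, hP2, hP3⟩ := hclamp Q hQ δ hδ0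
  refine ⟨P, hP1, hP2, ?_⟩
  -- the norm of the difference
  have hiP : ι (co (ind S - P)) = x - ι (co P) := by
    rw [hx, ← map_sub]
    congr 1
    ext n
    simp
  have ha1 : ‖x - ι (co P)‖ ≤ ‖x - F‖ + 3 * δ := by
    have h1 : ‖ι (co (ind S - P))‖ ≤ ‖ι (co (ind S) - Q)‖ + 2 * δ := by
      refine mink hm hin _ _ _ (by positivity) fun n => ?_
      rw [co_apply, Complex.norm_real, Real.norm_eq_abs]
      have := hP3 n (ind S n) (ind_bd S n).1 (ind_bd S n).2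
      simpa using this
    have h2 : ι (co (ind S) - Q) = (x - F) + (F - ι Q) := by
      rw [map_sub, ← hx]
      abel
    have h3 : ‖(x - F) + (F - ι Q)‖ ≤ ‖x - F‖ + δ := by
      have h4 := pyth (W.sub_mem hF (hTW Q hQ)) hR
      have h5 : ‖(x - F) + (F - ι Q)‖ ^ 2 ≤ (‖x - F‖ + δ) ^ 2 := by
        rw [h4]
        have h6 : ‖F - ι Q‖ ^ 2 ≤ δ ^ 2 := pow_le_pow_left₀ (norm_nonneg _) hFQ.le 2
        have h7 : 0 ≤ ‖x - F‖ * δ := by positivity
        nlinarith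
      exact (pow_le_pow_iff_left₀ (norm_nonneg _) (by positivity) (by norm_num)).1 h5
    rw [hiP, h2] at h1
    linarith
  obtain ⟨τ, hτ⟩ : ∃ τ, τ = ‖F - ι (co P)‖ := ⟨_, rfl⟩
  have hτ0 : 0 ≤ τ := by rw [hτ]; exact norm_nonneg _
  have hτε : τ ≤ ε / 2 := by
    have h1 := pyth (W.sub_mem hF (hTW _ hP1)) hR
    have h2 : (x - F) + (F - ι (co P)) = x - ι (co P) := by abel
    rw [h2, ← hτ] at h1
    have h3 : ‖x - ι (co P)‖ ^ 2 ≤ (‖x - F‖ + 3 * δ) ^ 2 :=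
      pow_le_pow_left₀ (norm_nonneg _) ha1 2
    have h4 : τ ^ 2 ≤ (ε / 2) ^ 2 := by
      have h5 : ‖x - F‖ * δ ≤ 1 * δ := mul_le_mul_of_nonneg_right hR1 hδ0.le
      have h6 : δ * δ ≤ 1 * δ := mul_le_mul_of_nonneg_right hδ1 hδ0.le
      nlinarith
    exact (pow_le_pow_iff_left₀ hτ0 (by positivity) (by norm_num)).1 h4
  intro b hb hb1 G hG
  obtain ⟨v, hv⟩ : ∃ v, v = ι (co (b * (ind S - P))) := ⟨_, rfl⟩
  obtain ⟨v1, hv1, hv2⟩ := hdec v
  -- the projection is small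
  have hin1 : ∀ w ∈ W, ‖⟪w, v⟫_ℂ‖ ≤ ‖w‖ * τ := by
    intro w hw
    have hcl : IsClosed {w : H | ‖⟪w, v⟫_ℂ‖ ≤ ‖w‖ * τ} := by
      refine isClosed_le ?_ (continuous_norm.mul continuous_const)
      exact (continuous_id.inner continuous_const).norm
    have hsub : ((Trig.map ι : Submodule ℂ H) : Set H) ⊆ {w : H | ‖⟪w, v⟫_ℂ‖ ≤ ‖w‖ * τ} := by
      rintro _ ⟨q, hq, rfl⟩
      show ‖⟪ι q, v⟫_ℂ‖ ≤ ‖ι q‖ * τ
      have h1 : ⟪ι q, v⟫_ℂ = ⟪ι (co b * q), (x - F) + (F - ι (co P))⟫_ℂ := by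
        have h2 : (x - F) + (F - ι (co P)) = ι (co (ind S - P)) := by
          rw [hiP]
          abel
        rw [h2, hv, hin, hin]
        congr 1
        rw [star_mul, star_co, co_mul]
        ring
      have h3 : co b * q ∈ Trig := htrg.2.1 _ _ hb hq
      have h4 : ⟪ι (co b * q), x - F⟫_ℂ = 0 :=
        Submodule.inner_right_of_mem_orthogonal (hTW _ h3) hR
      rw [h1, inner_add_right, h4, zero_add]
      refine (norm_inner_le_norm _ _).trans ?_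
      rw [← hτ]
      refine mul_le_mul_of_nonneg_right ?_ hτ0
      refine norm_le hm hin _ _ fun n => ?_
      simp only [BoundedContinuousFunction.coe_mul, Pi.mul_apply, co_apply, norm_mul,
        Complex.norm_real, Real.norm_eq_abs]
      have := mul_le_mul_of_nonneg_right (hb1 n) (norm_nonneg (q n))
      linarith
    have h5 : w ∈ closure ((Trig.map ι : Submodule ℂ H) : Set H) := by
      rw [← Submodule.topologicalClosure_coe, ← hW]
      exact hw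
    exact closure_minimal hsub hcl h5
  have hv1τ : ‖v1‖ ≤ ε / 2 := by
    have h1 := hin1 v1 hv1
    have h2 : ⟪v1, v⟫_ℂ = ⟪v1, v1⟫_ℂ := by
      have h3 : v = v1 + (v - v1) := by abel
      rw [h3, inner_add_right, Submodule.inner_right_of_mem_orthogonal hv1 hv2, add_zero]
    have h4 : ‖⟪v1, v1⟫_ℂ‖ = ‖v1‖ * ‖v1‖ := by
      rw [inner_self_eq_norm_sq_to_K, norm_pow]
      simp [pow_two]
    rw [h2, h4] at h1
    rcases (norm_nonneg v1).eq_or_lt with h5 | h5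
    · rw [← h5]
      positivity
    · have := le_of_mul_le_mul_left h1 h5
      linarith
  -- the weakly mixing part
  have hwm := hwmh H U (v - v1) (by
    intro θ w hw
    obtain ⟨c, rfl⟩ := hev θ w hw
    have h1 : ι (chr θ) ∈ W := hTW _ (Submodule.subset_span ⟨θ, rfl⟩)
    exact Submodule.inner_right_of_mem_orthogonal (W.smul_mem c h1) hv2) (ι (co G)) (ε / 2)
    (by positivity)
  refine hnul.2.1 _ _ ?_ (hnul.2.2.2.2.2 _ hwm)
  intro a ha
  have ha' : ε < |m (b * (ind S - P) * sh a G)| := ha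
  show ε / 2 < ‖⟪ι (co G), (U ^ (-a)) (v - v1)⟫_ℂ‖
  have h1 : ((m (b * (ind S - P) * sh a G) : ℝ) : ℂ) = ⟪(U ^ a) (ι (co G)), v⟫_ℂ := by
    rw [zpow_io U hU, hv, hin, ← mC_co]
    congr 1
    ext n
    simp only [co_apply, BoundedContinuousFunction.coe_mul, Pi.mul_apply,
      BoundedContinuousFunction.star_apply, sh_apply, RCLike.star_def, Complex.conj_ofReal]
    push_cast
    ring
  have h2 : ⟪(U ^ a) (ι (co G)), v⟫_ℂ =
      ⟪(U ^ a) (ι (co G)), v1⟫_ℂ + ⟪ι (co G), (U ^ (-a)) (v - v1)⟫_ℂ := by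
    rw [← inner_zpow, ← inner_add_right]
    congr 1
    abel
  have h3 : ‖⟪(U ^ a) (ι (co G)), v1⟫_ℂ‖ ≤ ε / 2 := by
    refine (norm_inner_le_norm _ _).trans ?_
    rw [LinearIsometryEquiv.norm_map]
    have h4 : ‖ι (co G)‖ ≤ 1 := norm_le_one hm hin _ fun n => by
      rw [co_apply, Complex.norm_real, Real.norm_eq_abs]
      exact hG n
    calc ‖ι (co G)‖ * ‖v1‖ ≤ 1 * (ε / 2) := mul_le_mul h4 hv1τ (norm_nonneg _) (by norm_num)
      _ = ε / 2 := by ring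
  have h5 : |m (b * (ind S - P) * sh a G)| =
      ‖⟪(U ^ a) (ι (co G)), v1⟫_ℂ + ⟪ι (co G), (U ^ (-a)) (v - v1)⟫_ℂ‖ := by
    rw [← h2, ← h1, Complex.norm_real, Real.norm_eq_abs]
  have h6 := norm_add_le ⟪(U ^ a) (ι (co G)), v1⟫_ℂ ⟪ι (co G), (U ^ (-a)) (v - v1)⟫_ℂ
  linarith

end Pool.Agent.W372.FN
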